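import Pool.Agent.MP_070445_nt.W16.EC

open Polynomial Finset WeierstrassCurve WeierstrassCurve.Affine
open scoped Polynomial.Bivariate

namespace H16w

section
variable (R : Type) [CommRing R] (T : Finset ℕ)

/-- The square root of the non-linear part of the additive polynomial. -/
noncomputable def Mp : R[X] := ∑ i ∈ T, X ^ 2 ^ i

/-- The additive polynomial. -/
noncomputable def Lp : R[X] := X + Mp R T ^ 2

/-- The right-hand side of the curve. -/
noncomputable def fp : R[X] := X * Lp R T ^ 2 + Mp R T * Lp R T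

variable {R} {S : Type} [CommRing S] (φ : R →+* S)

theorem Mp_map : (Mp R T).map φ = Mp S T := by simp [Mp, Polynomial.map_sum]
theorem Lp_map : (Lp R T).map φ = Lp S T := by simp [Lp, Mp_map]
theorem fp_map : (fp R T).map φ = fp S T := by simp [fp, Mp_map, Lp_map]
theorem fp_zero : (fp R T).eval 0 = 0 := by simp [fp, Lp, Mp, eval_finsetSum]

theorem Lp_eq [CharP R 2] : Lp R T = X + ∑ i ∈ T, X ^ 2 ^ (i + 1) := by
  rw [Lp, Mp, sum_pow_char]; simp only [← pow_mul, pow_succ 2]

variable {T} {e : ℕ} [Nontrivial R]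

theorem degs (h1 : ∀ i ∈ T, i ≤ e) (h2 : e ∈ T) :
    ((Lp R T).Monic ∧ (Lp R T).natDegree = 2 ^ (e + 1)) ∧
      (fp R T).Monic ∧ (fp R T).natDegree = 2 * 2 ^ (e + 1) + 1 := by
  have a1 : (Mp R T).natDegree ≤ 2 ^ e := natDegree_sum_le_of_forall_le _ _ fun i hi =>
    (natDegree_X_pow_le _).trans (Nat.pow_le_pow_right two_pos (h1 i hi))
  have a2 : (Mp R T).coeff (2 ^ e) = 1 := by
    simp [Mp, coeff_X_pow, (Nat.pow_right_injective le_rfl).eq_iff, h2]
  have a3 := natDegree_eq_of_le_of_coeff_ne_zero a1 (a2 ▸ one_ne_zero)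
  have a4 := monic_of_natDegree_le_of_coeff_eq_one _ a1 a2
  have p := Nat.one_le_two_pow (n := e)
  have a5 : (X : R[X]).natDegree < (Mp R T ^ 2).natDegree := by
    rw [a4.natDegree_pow, a3, natDegree_X]; omega
  have b1 : (Lp R T).Monic := (a4.pow 2).add_of_right (degree_lt_degree a5)
  have b2 : (Lp R T).natDegree = 2 ^ (e + 1) := by
    rw [Lp, natDegree_add_eq_right_of_natDegree_lt a5, a4.natDegree_pow, a3, pow_succ']
  have c1 : (X * Lp R T ^ 2).natDegree = 2 * 2 ^ (e + 1) + 1 := by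
    rw [monic_X.natDegree_mul (b1.pow 2), natDegree_X, b1.natDegree_pow, b2, add_comm]
  have c2 : (Mp R T * Lp R T).natDegree < (X * Lp R T ^ 2).natDegree := by
    rw [c1, a4.natDegree_mul b1, a3, b2, pow_succ]; omega
  exact ⟨⟨b1, b2⟩, (monic_X.mul (b1.pow 2)).add_of_left (degree_lt_degree c2),
    by rw [fp, natDegree_add_eq_left_of_natDegree_lt c2, c1]⟩

end

variable {F : Type} [Field F] [CharP F 2]

/-- The dual kernel. -/
def Ker (e : ℕ) (T : Finset ℕ) (z : F) : Prop := z ^ 2 ^ (e + 1) + ∑ i ∈ T, z ^ 2 ^ (e - i) = 0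

theorem ker_pow {e : ℕ} {T : Finset ℕ} {z : F} (j : ℕ) : Ker e T (z ^ 2 ^ j) ↔ Ker e T z := by
  rw [Ker, Ker, ← pow_eq_zero_iff (a := z ^ 2 ^ (e + 1) + _) (show 2 ^ j ≠ 0 by positivity),
    add_pow_char_pow, sum_pow_char_pow]
  simp only [pow_right_comm z (2 ^ j)]

/-- The Artin–Schreier map. -/
noncomputable def wp : F[X] →+ F[X] :=
  AddMonoidHom.mk' (fun U => U ^ 2 + U) fun a b => by rw [add_pow_char]; ring

theorem wp_pow (g : F[X]) (j : ℕ) : g ^ 2 ^ j + g ∈ (wp (F := F)).range := by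
  induction j with
  | zero => simp [CharTwo.add_self_eq_zero]
  | succ j ih =>
    have := add_mem (show (g ^ 2 ^ j) ^ 2 + g ^ 2 ^ j ∈ (wp (F := F)).range from ⟨_, rfl⟩) ih
    rwa [add_assoc, ← add_assoc (g ^ 2 ^ j), CharTwo.add_self_eq_zero, zero_add, ← pow_mul,
      ← pow_succ] at this

variable [IsAlgClosed F]

omit [CharP F 2] in
theorem as_root (a : F) : ∃ y : F, y ^ 2 + y = a := by
  obtain ⟨y, hy⟩ := IsAlgClosed.exists_root (X ^ 2 + X - C a : F[X]) (by
    rw [show (X ^ 2 + X - C a : F[X]).degree = 2 by compute_degree!]; norm_num)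
  exact ⟨y, by simpa [sub_eq_zero] using hy⟩

theorem wp_ker {e : ℕ} {T : Finset ℕ} (h1 : ∀ i ∈ T, i ≤ e) {z : F} (hz : Ker e T z) :
    C z * Lp F T ∈ (wp (F := F)).range := by
  obtain ⟨ρ, rfl⟩ := IsAlgClosed.exists_pow_nat_eq z (show 0 < 2 ^ (e + 1) by positivity)
  have h := congrArg (fun a : F => C a * (X : F[X])) ((ker_pow (e + 1)).1 hz)
  have m := sum_mem fun i (_ : i ∈ T) => wp_pow (C (ρ ^ 2 ^ (e - i)) * X) (i + 1)
  rw [sum_add_distrib, sum_congr rfl (g := fun i => C (ρ ^ 2 ^ (e + 1)) * X ^ 2 ^ (i + 1)) fun i hi => by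
    rw [mul_pow, ← C_pow, ← pow_mul, ← pow_add, show e - i + (i + 1) = e + 1 by
      have := h1 i hi; omega]] at m
  simp only [map_add, map_sum, add_mul, sum_mul, map_zero, zero_mul] at h
  rw [Lp_eq, mul_add, mul_sum, CharTwo.add_eq_zero.1 h, add_comm]
  exact m

theorem exists_V {e : ℕ} {T : Finset ℕ} (h1 : ∀ i ∈ T, i ≤ e) {c : F} (hc : Ker e T c) :
    ∃ V : F[X], V ^ 2 + V = (Lp F T + C c) ^ 3 + Lp F T ^ 3 := by
  obtain ⟨r, rfl⟩ := IsAlgClosed.exists_pow_nat_eq c (show 0 < 2 ^ 1 by positivity)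
  obtain ⟨y, hy⟩ := as_root ((r ^ 2 ^ 1) ^ 3)
  obtain ⟨U, hU⟩ := add_mem (add_mem (add_mem (wp_pow (C r * Lp F T) 1)
    (wp_ker h1 ((ker_pow 1).1 hc))) (wp_ker h1 ((ker_pow 1).2 hc))) (wp_pow (C y) 1)
  refine ⟨U, hU.trans ?_⟩
  have h2 := congrArg C hy
  simp only [map_add, map_pow, pow_one] at h2 ⊢
  linear_combination h2 + (C r * Lp F T - Lp F T ^ 3 - C r ^ 2 * Lp F T ^ 2 -
    C r ^ 4 * Lp F T) * CharTwo.two_eq_zero (R := F[X])

/-- A separable additive polynomial. -/
structure Good (L : F[X]) : Prop where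
  monic : L.Monic
  pos : 0 < L.natDegree
  der : derivative L = 1
  comp : ∀ v, L.comp (X + C v) = L + C (L.eval v)

omit [IsAlgClosed F] in
theorem good_Lp {e : ℕ} {T : Finset ℕ} (h1 : ∀ i ∈ T, i ≤ e) (h2 : e ∈ T) : Good (Lp F T) where
  monic := (degs h1 h2).1.1
  pos := by rw [(degs h1 h2).1.2]; positivity
  der := by simp [Lp, derivative_pow, CharTwo.two_eq_zero]
  comp v := by
    simp only [Lp_eq, add_comp, X_comp, Polynomial.sum_comp, pow_comp, add_pow_char_pow,
      sum_add_distrib, eval_add, eval_X, eval_finsetSum, eval_pow, map_add, map_sum, map_pow]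
    ring

variable [DecidableEq F] {L : F[X]}

omit [CharP F 2] [IsAlgClosed F] [DecidableEq F] in
theorem Good.add (h : Good L) (a v : F) : L.eval (a + v) = L.eval a + L.eval v := by
  simpa [eval_comp] using congrArg (eval a) (h.comp v)

omit [CharP F 2] [IsAlgClosed F] [DecidableEq F] in
theorem Good.zero (h : Good L) : L.eval 0 = 0 := by simpa using h.add 0 0

theorem Good.prod (h : Good L) : ∏ v ∈ L.roots.toFinset, (X + C v) = L := by
  have s : L.Separable := by rw [separable_def, h.der]; exact isCoprime_one_right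
  rw [Finset.prod_eq_multiset_prod, Multiset.toFinset_val, (nodup_roots s).dedup]
  simpa only [CharTwo.sub_eq_add] using prod_multiset_X_sub_C_of_monic_of_roots_card_eq h.monic
    IsAlgClosed.card_roots_eq_natDegree

theorem Good.inv (h : Good L) (c : F) (p : F[X]) (hp : ∀ v, L.eval v = 0 → p.comp (X + C v) = p) :
    ∃ q : F[X], p = q.comp (L + C c) := by
  induction hn : p.natDegree using Nat.strong_induction_on generalizing p with
  | _ n ih =>
  obtain ⟨q, hq⟩ : L ∣ p - C (p.eval 0) := by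
    have := card_le L.roots.toFinset id (Set.injOn_id _) (q := p - C (p.eval 0)) fun v hv => by
      have := congrArg (eval 0) (hp v (isRoot_of_mem_roots (Multiset.mem_toFinset.1 hv)))
      simpa [eval_comp, sub_eq_zero] using this
    simpa only [id, CharTwo.sub_eq_add, h.prod] using this
  rcases eq_or_ne q 0 with rfl | q0
  · exact ⟨C (p.eval 0), by rw [C_comp, ← sub_eq_zero, hq, mul_zero]⟩
  have d := congrArg natDegree hq
  rw [natDegree_sub_C, h.monic.natDegree_mul' q0] at d
  obtain ⟨r, hr⟩ := ih q.natDegree (by have := h.pos; omega) q (fun v hv => by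
    have := congrArg (·.comp (X + C v)) hq
    simp only [sub_comp, C_comp, mul_comp, hp v hv, h.comp, hv, C_0, add_zero] at this
    exact mul_left_cancel₀ h.monic.ne_zero (this.symm.trans hq)) rfl
  exact ⟨C (p.eval 0) + (X - C c) * r, by
    rw [add_comp, mul_comp, ← hr, sub_comp, X_comp, C_comp, C_comp]; linear_combination hq⟩

theorem Good.push (h : Good L) {c κ : F} {α β : F[X]} {N : ℕ} (hκ : κ ≠ 0) (hN : N ≠ 0)
    (h0 : β.eval 0 ≠ 0) (hn : α ^ 2 + α * β + β ^ 2 * (L + C c) ^ 3 = C κ * X ^ N) :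
    ∃ y, y ^ 2 + y = c ^ 3 ∧ N • pt c y = 0 := by
  have mem : ∀ v, v ∈ L.roots.toFinset ↔ L.eval v = 0 := fun v => by
    rw [Multiset.mem_toFinset, mem_roots h.monic.ne_zero, IsRoot]
  have ev : ∀ v, L.eval v = 0 →
      α.eval v ^ 2 + α.eval v * β.eval v + β.eval v ^ 2 * c ^ 3 = κ * v ^ N := fun v hv => by
    simpa [hv] using congrArg (eval v) hn
  obtain ⟨y, hy⟩ : ∃ y, β.eval 0 * y = α.eval 0 := ⟨_, mul_div_cancel₀ _ h0⟩
  have t := CharTwo.two_eq_zero (R := F)
  have y1 : y ^ 2 + y = c ^ 3 := by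
    have := ev 0 h.zero
    rw [zero_pow hN, mul_zero, ← hy] at this
    exact mul_left_cancel₀ (pow_ne_zero 2 h0) (by
      linear_combination this - β.eval 0 ^ 2 * c ^ 3 * t)
  obtain ⟨G, hG⟩ : ∃ G : F[X][Y], G = ∏ v ∈ L.roots.toFinset,
    (C (α.comp (X + C v)) + C (β.comp (X + C v)) * Y) := ⟨_, rfl⟩
  obtain ⟨H, hH⟩ : ∃ H : F[X][Y], H.map (compRingHom (L + C c)) = G := by
    refine (mem_lifts _).1 ((lifts_iff_coeff_lifts _).2 fun n => ?_)
    obtain ⟨q, hq⟩ := h.inv c (G.coeff n) fun w hw => by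
      refine (coeff_map (compRingHom (X + C w)) n).symm.trans (congrArg (coeff · n) ?_)
      rw [hG, Polynomial.map_prod]
      refine prod_nbij' (· + w) (· + w) (fun v hv => ?_) (fun v hv => ?_) (fun v _ => ?_)
        (fun v _ => ?_) fun v _ => ?_
      · rw [mem, h.add, (mem v).1 hv, hw, add_zero]
      · rw [mem, h.add, (mem v).1 hv, hw, add_zero]
      · rw [add_assoc, CharTwo.add_self_eq_zero, add_zero]
      · rw [add_assoc, CharTwo.add_self_eq_zero, add_zero]
      · simp [comp_assoc, add_assoc, add_comm (C w)]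
    exact ⟨q, hq.symm⟩
  have inj : Function.Injective (compRingHom (L + C c)) := (injective_iff_map_eq_zero _).2 fun p hp => by
    refine (comp_eq_zero_iff.1 hp).resolve_right fun e => ?_
    have := congrArg natDegree e.2
    rw [natDegree_add_C, natDegree_C] at this
    exact h.pos.ne' this
  refine ⟨y, y1, ?_⟩
  have := sum_zero {()} (fun _ => N) (fun _ => c) (fun _ => y) (fun _ _ => y1) H
    (pow_ne_zero L.roots.toFinset.card hκ) (by
      refine AdjoinRoot.mk_eq_mk.2 ((map_dvd_map _ inj monic_polynomial).1 (AdjoinRoot.mk_eq_zero.1 ?_))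
      rw [Polynomial.map_sub, Polynomial.map_mul, map_comp, hH, hG, map_sub, sub_eq_zero,
        Polynomial.prod_comp, ← prod_mul_distrib, map_prod,
        prod_congr rfl (g := fun v => AdjoinRoot.mk _ (C (C κ * (X + C v) ^ N))) fun v hv => ?_,
        ← map_prod, ← map_prod, prod_mul_distrib, prod_pow, h.prod]
      · simp
      · have := congrArg (fun p => (C (p.comp (X + C v)) : F[X][Y])) hn
        simp only [add_comp, mul_comp, pow_comp, C_comp, X_comp, h.comp, (mem v).1 hv, C_0,
          add_zero] at this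
        rw [← this]
        refine AdjoinRoot.mk_eq_mk.2 ⟨C (β.comp (X + C v)) ^ 2, ?_⟩
        simp only [polynomial, W, add_comp, mul_comp, C_comp, X_comp, map_add, map_mul, map_pow,
          map_zero, map_one, Polynomial.map_add, Polynomial.map_sub, Polynomial.map_mul,
          Polynomial.map_pow, map_X, map_C, Polynomial.map_one, Polynomial.map_zero,
          coe_compRingHom_apply]
        linear_combination (C (α.comp (X + C v)) * C (β.comp (X + C v)) * Y) *
          CharTwo.two_eq_zero (R := F[X][Y])) (fun _ _ => by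
      have e : ∀ H : F[X][Y], H.evalEval c (y + 1) =
          (H.map (compRingHom (L + C c))).evalEval 0 (y + 1) := fun H => by
        induction H using Polynomial.induction_on' with
        | add p q hp hq => rw [Polynomial.map_add, evalEval_add, evalEval_add, hp, hq]
        | monomial n a => simp [← C_mul_X_pow_eq_monomial, evalEval_C, eval_comp, h.zero]
      rw [e, hH, hG, evalEval_prod]
      refine prod_ne_zero_iff.2 fun v hv e => ?_
      simp only [evalEval_add, evalEval_mul, evalEval_C, evalEval_X, eval_comp, eval_add, eval_X,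
        eval_C, zero_add] at e
      rcases eq_or_ne v 0 with rfl | v0
      · exact h0 (by linear_combination e - hy - α.eval 0 * t)
      · refine mul_ne_zero hκ (pow_ne_zero N v0) ?_
        linear_combination (α.eval v + β.eval v * y) * e - ev v ((mem v).1 hv) -
          β.eval v ^ 2 * y1 - α.eval v * β.eval v * y * t)
  simpa using this

end H16w
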