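import Mathlib

open Polynomial Finset WeierstrassCurve WeierstrassCurve.Affine
open scoped Polynomial.Bivariate

namespace H16w

variable {F : Type} [Field F] [CharP F 2] [DecidableEq F]

/-- The supersingular curve `y² + y = x³`. -/
def W (F : Type) [Field F] : Affine F := ⟨0, 0, 1, 0, 0⟩

omit [DecidableEq F] in
theorem negY_eq (x y : F) : (W F).negY x y = y + 1 := by
  simp [negY, W, CharTwo.neg_eq, CharTwo.sub_eq_add]

omit [DecidableEq F] in
theorem ns {x y : F} (h : y ^ 2 + y = x ^ 3) : (W F).Nonsingular x y := by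
  rw [nonsingular_iff', equation_iff]
  exact ⟨by simpa [W] using h, Or.inr (by simp [W, CharTwo.two_eq_zero])⟩

/-- The point with given coordinates (zero if they are not on the curve). -/
def pt (x y : F) : (W F).Point := if h : y ^ 2 + y = x ^ 3 then .some _ _ (ns h) else 0

theorem pt_eq {x y : F} (h : y ^ 2 + y = x ^ 3) : pt x y = .some _ _ (ns h) := dif_pos h

omit [DecidableEq F] in
theorem on_succ {x y : F} (h : y ^ 2 + y = x ^ 3) : (y + 1) ^ 2 + (y + 1) = x ^ 3 := by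
  linear_combination h + (y + 1) * CharTwo.two_eq_zero (R := F)

omit [DecidableEq F] in
theorem on_four {x y : F} (h : y ^ 2 + y = x ^ 3) : (y ^ 4) ^ 2 + y ^ 4 = (x ^ 4) ^ 3 := by
  have := congrArg (· ^ 2 ^ 2) h
  simp only [add_pow_char_pow] at this
  linear_combination this

theorem pt_ne {x y : F} (h : y ^ 2 + y = x ^ 3) : pt x y ≠ 0 := by
  rw [pt_eq h]; exact Point.some_ne_zero _

theorem pt_neg {x y : F} (h : y ^ 2 + y = x ^ 3) : pt x (y + 1) = -pt x y := by
  rw [pt_eq h, pt_eq (on_succ h), Point.neg_some]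
  simp only [negY_eq]

theorem pt_four {x y : F} (h : y ^ 2 + y = x ^ 3) :
    pt (x ^ 4) (y ^ 4) = -(pt x y + pt x y) := by
  have t := CharTwo.two_eq_zero (R := F)
  have hy : y ≠ (W F).negY x y := by rw [negY_eq]; simp
  have hs : (W F).slope x x y y = x ^ 2 := by
    rw [slope_of_Y_ne rfl hy, negY_eq, div_eq_iff (by simp)]
    simp only [W]
    linear_combination (2 * x ^ 2) * t
  rw [pt_eq h, pt_eq (on_four h), Point.add_self_of_Y_ne' hy, neg_neg, Point.some.injEq, hs]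
  simp only [addX, negAddY, W]
  exact ⟨by linear_combination x * t,
    by linear_combination (y ^ 2 - y + x ^ 3 + 1) * h + (2 * x ^ 3 - y - x ^ 3 * y) * t⟩

theorem two_inj {P : (W F).Point} (h : P + P = 0) : P = 0 := by
  rcases P with _ | ⟨x, y, hp⟩
  · rfl
  · rw [Point.add_self_of_Y_ne (by rw [negY_eq]; simp)] at h
    exact absurd h (Point.some_ne_zero _)

theorem pt_pow {x y : F} (h : y ^ 2 + y = x ^ 3) (j : ℕ) :
    (y ^ 4 ^ j) ^ 2 + y ^ 4 ^ j = (x ^ 4 ^ j) ^ 3 ∧ pt (x ^ 4 ^ j) (y ^ 4 ^ j) = (-2 : ℤ) ^ j • pt x y := by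
  induction j with
  | zero => simpa using h
  | succ j ih =>
    rw [pow_succ 4, pow_mul, pow_mul, pt_four ih.1, ih.2, pow_succ' (-2 : ℤ), mul_smul]
    exact ⟨on_four ih.1, by rw [neg_smul, two_smul]⟩

open CoordinateRing

theorem sum_iff {ι : Type} (S : Finset ι) (n : ι → ℕ) (x y : ι → F)
    (h : ∀ i ∈ S, y i ^ 2 + y i = x i ^ 3) : ∑ i ∈ S, n i • pt (x i) (y i) = 0 ↔
      ∃ g : (W F).CoordinateRing, g ≠ 0 ∧
        ∏ i ∈ S, XYIdeal (W F) (x i) (C (y i)) ^ n i = Ideal.span {g} := by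
  rw [← Point.toClass_eq_zero, map_sum, ← sum_attach, ← prod_attach,
    ← ClassGroup.mk_eq_one_of_coe_ideal (I := ∏ i ∈ S.attach, XYIdeal' (ns (h i i.2)) ^ n i)]
  · rw [map_prod]
    refine Iff.of_eq (congrArg (· = (1 : ClassGroup (W F).CoordinateRing)) ?_)
    refine prod_congr rfl fun i _ => ?_
    rw [map_nsmul, pt_eq (h i i.2), map_pow]; rfl
  · rw [Units.coe_prod, ← FractionalIdeal.coeIdealHom_apply, map_prod]
    refine prod_congr rfl fun i _ => ?_
    rw [map_pow, Units.val_pow_eq_pow_val]; rfl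

omit [CharP F 2] [DecidableEq F] in
theorem cop {x y : F} {p : F[X][Y]} (h : p.evalEval x y ≠ 0) :
    IsCoprime (XYIdeal (W F) x (C y)) (Ideal.span {mk (W F) p}) := by
  obtain ⟨a, b, hab⟩ := Ideal.mem_span_pair.1 ((mem_span_C_X_sub_C_X_sub_C_iff_eval_eval_eq_zero
    (a := x) (b := C y) (P := 1 - C (C (p.evalEval x y)⁻¹) * p)).2 (by
      simp [inv_mul_cancel₀ h]))
  refine Ideal.isCoprime_iff_exists.2 ⟨mk _ (1 - C (C (p.evalEval x y)⁻¹) * p), ?_,
    mk _ (C (C (p.evalEval x y)⁻¹) * p), ?_, by rw [← map_add]; simp⟩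
  · rw [← hab, map_add, map_mul, map_mul]
    exact Ideal.mem_span_pair.2 ⟨_, _, rfl⟩
  · rw [map_mul]; exact Ideal.mem_span_singleton'.2 ⟨_, rfl⟩

omit [DecidableEq F] in
theorem prod_ideal {ι : Type} (S : Finset ι) (n : ι → ℕ) (x y : ι → F)
    (h : ∀ i ∈ S, y i ^ 2 + y i = x i ^ 3) :
    (∏ i ∈ S, XYIdeal (W F) (x i) (C (y i + 1)) ^ n i) * ∏ i ∈ S, XYIdeal (W F) (x i) (C (y i)) ^ n i =
      Ideal.span {mk (W F) (C (∏ i ∈ S, (X - C (x i)) ^ n i))} := by
  rw [← prod_mul_distrib, map_prod, map_prod, ← Ideal.prod_span_singleton]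
  refine prod_congr rfl fun i hi => ?_
  rw [← mul_pow, ← negY_eq (x i), XYIdeal_neg_mul (ns (h i hi)), XIdeal, Ideal.span_singleton_pow,
    map_pow, map_pow, XClass]

theorem sum_zero {ι : Type} (S : Finset ι) (n : ι → ℕ) (x y : ι → F)
    (h : ∀ i ∈ S, y i ^ 2 + y i = x i ^ 3) (p : F[X][Y]) {κ : F} (hκ : κ ≠ 0)
    (hp : mk (W F) (p * p.comp (Y + 1)) = mk (W F) (C (C κ * ∏ i ∈ S, (X - C (x i)) ^ n i)))
    (h1 : ∀ i ∈ S, p.evalEval (x i) (y i + 1) ≠ 0) : ∑ i ∈ S, n i • pt (x i) (y i) = 0 := by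
  have e := prod_ideal S n x y h
  have u : IsUnit (mk (W F) (C (C κ))) := ((IsUnit.mk0 _ hκ).map C).map C |>.map _
  rw [← Ideal.span_singleton_mul_left_unit u, ← map_mul, ← C_mul, ← hp, map_mul,
    ← Ideal.span_singleton_mul_span_singleton] at e
  have c1 : IsCoprime (∏ i ∈ S, XYIdeal (W F) (x i) (C (y i + 1)) ^ n i) (Ideal.span {mk (W F) p}) :=
    IsCoprime.prod_left fun i hi => (cop (h1 i hi)).pow_left
  have c2 : IsCoprime (∏ i ∈ S, XYIdeal (W F) (x i) (C (y i)) ^ n i)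
      (Ideal.span {mk (W F) (p.comp (Y + 1))}) :=
    IsCoprime.prod_left fun i hi => (cop (by
      have := h1 i hi
      simpa [evalEval, eval_comp] using this)).pow_left
  refine (sum_iff S n x y h).2 ⟨mk _ p, fun h0 => ?_, ?_⟩
  · rw [map_mul, h0, zero_mul] at hp
    refine AdjoinRoot.mk_ne_zero_of_natDegree_lt monic_polynomial (C_ne_zero.2 (mul_ne_zero
      (C_ne_zero.2 hκ) (prod_ne_zero_iff.2 fun i _ => pow_ne_zero _ (X_sub_C_ne_zero _)))) ?_ hp.symm
    rw [natDegree_polynomial, natDegree_C]; norm_num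
  · exact le_antisymm (Ideal.le_of_dvd (c1.symm.dvd_of_dvd_mul_left ⟨_, e⟩))
      (Ideal.le_of_dvd (c2.dvd_of_dvd_mul_right ⟨_, by rw [← e, mul_comm]⟩))

omit [DecidableEq F] in
theorem norm_eval (a b : F[X]) {x y : F} (h : y ^ 2 + y = x ^ 3) (h0 : a.eval x + b.eval x * y = 0) :
    (a ^ 2 + a * b + b ^ 2 * X ^ 3).eval x = 0 := by
  simp only [eval_add, eval_mul, eval_pow, eval_X]
  linear_combination (a.eval x + b.eval x * y + b.eval x) * h0 - b.eval x ^ 2 * h -
    (a.eval x * b.eval x * y) * CharTwo.two_eq_zero (R := F)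

omit [DecidableEq F] in
theorem norm_eq (a b : F[X]) : Algebra.norm F[X] (a • (1 : (W F).CoordinateRing) + b • mk (W F) Y) =
    a ^ 2 + a * b + b ^ 2 * X ^ 3 := by
  rw [norm_smul_basis]; simp [W, CharTwo.sub_eq_add]

omit [DecidableEq F] in
theorem mem_eval {x y : F} (h : y ^ 2 + y = x ^ 3) {a b : F[X]}
    (hm : a • (1 : (W F).CoordinateRing) + b • mk (W F) Y ∈ XYIdeal (W F) x (C y)) :
    a.eval x + b.eval x * y = 0 := by
  let ev : (W F).CoordinateRing →+* F := AdjoinRoot.lift (evalRingHom x) y (by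
    rw [eval₂_evalRingHom]; exact (ns h).1)
  have e : ∀ p, ev (mk (W F) p) = p.evalEval x y := fun p => by
    rw [AdjoinRoot.lift_mk, eval₂_evalRingHom]
  obtain ⟨u, v, huv⟩ := Ideal.mem_span_pair.1 hm
  have := congrArg ev huv
  rw [smul, smul, XClass, YClass] at this
  simp only [map_add, map_mul, e, map_one] at this
  simpa [evalEval_C] using this.symm

omit [CharP F 2] [DecidableEq F] in
theorem card_le {ι : Type} (S : Finset ι) (x : ι → F) (hx : Set.InjOn x S) {q : F[X]}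
    (h : ∀ i ∈ S, q.eval (x i) = 0) : ∏ i ∈ S, (X - C (x i)) ∣ q :=
  Finset.prod_dvd_of_coprime (fun _ hi _ hj hij => isCoprime_X_sub_C_of_isUnit_sub
    (IsUnit.mk0 _ (sub_ne_zero.2 fun e => hij (hx hi hj e)))) fun i hi => dvd_iff_isRoot.2 (h i hi)

theorem aux_fun {ι : Type} (S : Finset ι) (x y : ι → F) (h : ∀ i ∈ S, y i ^ 2 + y i = x i ^ 3)
    (hx : Set.InjOn x S) (h0 : ∑ i ∈ S, pt (x i) (y i) = 0) : ∃ a b : F[X],
      ∏ i ∈ S, XYIdeal (W F) (x i) (C (y i)) ^ 1 = Ideal.span {a • 1 + b • mk (W F) Y} ∧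
      a ^ 2 + a * b + b ^ 2 * X ^ 3 ≠ 0 ∧ S.card ≤ (a ^ 2 + a * b + b ^ 2 * X ^ 3).natDegree ∧
      ∀ i ∈ S, a.eval (x i) + b.eval (x i) * y i = 0 := by
  obtain ⟨g, g0, hg⟩ := (sum_iff S (fun _ => 1) x y h).1 (by simpa using h0)
  obtain ⟨a, b, rfl⟩ := exists_smul_basis_eq g
  have h1 : ∀ i ∈ S, a.eval (x i) + b.eval (x i) * y i = 0 := fun i hi => mem_eval (h i hi) (by
    have := Ideal.le_of_dvd (hg ▸ dvd_prod_of_mem _ hi) (Ideal.mem_span_singleton_self _)
    rwa [pow_one] at this)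
  have : Module.Finite F[X] (W F).CoordinateRing := .of_basis (CoordinateRing.basis _)
  have h2 : a ^ 2 + a * b + b ^ 2 * X ^ 3 ≠ 0 := by
    rw [← norm_eq]; exact Algebra.norm_ne_zero_iff.2 g0
  refine ⟨a, b, hg, h2, ?_, h1⟩
  have := natDegree_le_of_dvd (card_le S x hx fun i hi => norm_eval a b (h i hi) (h1 i hi)) h2
  rwa [natDegree_prod_of_monic _ _ fun i _ => monic_X_sub_C _, sum_congr rfl fun i _ =>
    natDegree_X_sub_C (x i), sum_const, smul_eq_mul, mul_one] at this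

theorem crit {ι : Type} (S : Finset ι) (x y : ι → F) (h : ∀ i ∈ S, y i ^ 2 + y i = x i ^ 3)
    (hx : Set.InjOn x S) : ∑ i ∈ S, pt (x i) (y i) = 0 ↔ ∃ a b : F[X], (a ≠ 0 ∨ b ≠ 0) ∧
      a.degree < (S.card / 2 + 1 : ℕ) ∧ b.degree < ((S.card - 1) / 2 : ℕ) ∧
      ∀ i ∈ S, a.eval (x i) + b.eval (x i) * y i = 0 := by
  have pd : (∏ i ∈ S, (X - C (x i))).natDegree = S.card := by
    rw [natDegree_prod_of_monic _ _ fun i _ => monic_X_sub_C _, sum_congr rfl fun i _ =>
      natDegree_X_sub_C (x i), sum_const, smul_eq_mul, mul_one]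
  have key : ∀ a b : F[X], (a ^ 2 + a * b + b ^ 2 * X ^ 3).degree ≤ (S.card : WithBot ℕ) ↔
      a.degree < (S.card / 2 + 1 : ℕ) ∧ b.degree < ((S.card - 1) / 2 : ℕ) := fun a b => by
    rw [← norm_eq, degree_norm_smul_basis, max_le_iff]
    refine and_congr ?_ ?_
    · rcases eq_or_ne a 0 with rfl | ha
      · simp [WithBot.bot_lt_coe, Nat.cast_withBot]
      · rw [degree_eq_natDegree ha, two_nsmul]; norm_cast; omega
    · rcases eq_or_ne b 0 with rfl | hb
      · simp [WithBot.bot_lt_coe, Nat.cast_withBot]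
      · rw [degree_eq_natDegree hb, two_nsmul]; norm_cast; omega
  constructor
  · intro h0
    obtain ⟨a, b, h1, h2, h3, h4⟩ := aux_fun S x y h hx h0
    obtain ⟨a', b', h1', h2', h3', -⟩ := aux_fun S x (fun i => y i + 1) (fun i hi => on_succ (h i hi))
      hx (by rw [sum_congr rfl fun i hi => pt_neg (h i hi), sum_neg_distrib, h0, neg_zero])
    have e := prod_ideal S (fun _ => 1) x y h
    rw [h1, h1', Ideal.span_singleton_mul_span_singleton, Ideal.span_singleton_eq_span_singleton] at e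
    have e2 := (e.map (Algebra.norm F[X])).dvd
    have e3 := natDegree_le_of_dvd e2
    rw [map_mul, norm_eq, norm_eq, natDegree_mul h2' h2, ← mul_one (CoordinateRing.mk _ _), ← smul,
      ← add_zero (_ • (1 : (W F).CoordinateRing)), ← zero_smul F[X] (mk (W F) Y), norm_eq] at e3
    simp only [pow_one, mul_zero, add_zero, ne_eq, OfNat.ofNat_ne_zero, not_false_eq_true, zero_pow,
      zero_mul, natDegree_pow, pd] at e3
    have e4 := e3 (pow_ne_zero _ (monic_prod_of_monic _ _ fun i _ => monic_X_sub_C _).ne_zero)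
    obtain ⟨k1, k2⟩ := (key a b).1 (degree_le_of_natDegree_le (by omega))
    refine ⟨a, b, ?_, k1, k2, h4⟩
    by_contra hc
    rw [not_or, not_not, not_not] at hc
    simp [hc.1, hc.2] at h2
  · rintro ⟨a, b, h0, h1, h2, h3⟩
    have : Module.Finite F[X] (W F).CoordinateRing := .of_basis (CoordinateRing.basis _)
    have n0 : a ^ 2 + a * b + b ^ 2 * X ^ 3 ≠ 0 := by
      rw [← norm_eq]
      exact Algebra.norm_ne_zero_iff.2 fun e => by have := smul_basis_eq_zero e; tauto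
    obtain ⟨q, hq⟩ := card_le S x hx (q := a ^ 2 + a * b + b ^ 2 * X ^ 3) fun i hi => norm_eval a b (h i hi) (h3 i hi)
    have q0 : q ≠ 0 := by rintro rfl; exact n0 (by rw [hq, mul_zero])
    have m := monic_prod_of_monic S _ fun i _ => monic_X_sub_C (x i)
    have d := natDegree_le_of_degree_le ((key a b).2 ⟨h1, h2⟩)
    rw [hq, m.natDegree_mul' q0, pd] at d
    rw [eq_C_of_natDegree_eq_zero (show q.natDegree = 0 by omega)] at hq q0
    have := sum_zero S (fun _ => 1) x y h (C a + C b * Y) (C_ne_zero.1 q0) (by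
      simp only [pow_one]
      rw [mul_comm (C (q.coeff 0)), ← hq]
      refine AdjoinRoot.mk_eq_mk.2 ⟨C b ^ 2, ?_⟩
      simp only [polynomial, W, add_comp, mul_comp, C_comp, X_comp, map_add, map_mul, map_pow,
        map_zero, map_one]
      linear_combination (C a * C b * Y) * CharTwo.two_eq_zero (R := F[X][Y]))
      (fun i hi e => ?_)
    · simpa using this
    · have e1 := h3 i hi
      simp only [evalEval_add, evalEval_mul, evalEval_C, evalEval_X] at e
      have b0 : b.eval (x i) = 0 := by linear_combination e - e1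
      have a0 : a.eval (x i) = 0 := by rw [b0] at e1; simpa using e1
      obtain ⟨a1, rfl⟩ := dvd_iff_isRoot.2 a0
      obtain ⟨b1, rfl⟩ := dvd_iff_isRoot.2 b0
      classical
      rw [← mul_prod_erase S _ hi] at hq
      have e2 : (X - C (x i)) * (a1 ^ 2 + a1 * b1 + b1 ^ 2 * X ^ 3) =
          (∏ j ∈ S.erase i, (X - C (x j))) * C (q.coeff 0) :=
        mul_left_cancel₀ (X_sub_C_ne_zero (x i)) (by linear_combination hq)
      have e3 := congrArg (eval (x i)) e2
      simp only [eval_mul, eval_sub, eval_X, eval_C, sub_self, zero_mul, eval_prod] at e3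
      refine mul_ne_zero (prod_ne_zero_iff.2 fun j hj => sub_ne_zero.2 fun e => ?_)
        (C_ne_zero.1 q0) e3.symm
      exact (mem_erase.1 hj).1 (hx (mem_erase.1 hj).2 hi e.symm)

end H16w
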