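import Mathlib

open Polynomial Finset

namespace H16w

variable {k : Type} [Field k] [CharP k 2]

theorem floor_root {B : k[X]} (hB : B.Monic) (A : k[X]) (hA : A.natDegree < 2 * B.natDegree) :
    ∃ s : k[X], (s ^ 2 + B * s + A).natDegree < B.natDegree := by
  induction hd : A.natDegree using Nat.strong_induction_on generalizing A with
  | _ d ih =>
  rcases lt_or_ge d B.natDegree with h | h
  · exact ⟨0, by simpa [hd] using h⟩
  have a0 : A ≠ 0 := by rintro rfl; rw [natDegree_zero] at hA hd; omega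
  obtain ⟨m, hm⟩ : ∃ m, m = C A.leadingCoeff * X ^ (d - B.natDegree) := ⟨_, rfl⟩
  have m1 : m.natDegree = d - B.natDegree := hm ▸ natDegree_C_mul_X_pow _ _ (leadingCoeff_ne_zero.2 a0)
  have m0 : m ≠ 0 := hm ▸ mul_ne_zero (C_ne_zero.2 (leadingCoeff_ne_zero.2 a0)) (monic_X_pow _).ne_zero
  have a1 : (A - B * m).degree < A.degree := degree_sub_lt_left (by
    rw [degree_eq_natDegree a0, degree_eq_natDegree (mul_ne_zero hB.ne_zero m0),
      hB.natDegree_mul' m0, m1, hd, Nat.add_sub_cancel' h]) a0 (by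
    rw [leadingCoeff_mul, hB.leadingCoeff, one_mul, hm, leadingCoeff_C_mul_X_pow])
  have a2 : (m ^ 2 + (A - B * m)).natDegree < d := by
    refine (natDegree_add_le _ _).trans_lt (max_lt (by rw [natDegree_pow]; omega) ?_)
    rcases eq_or_ne (A - B * m) 0 with e | e
    · rw [e, natDegree_zero]; omega
    · exact hd ▸ natDegree_lt_natDegree e a1
  obtain ⟨s, hs⟩ := ih _ a2 _ (by omega) rfl
  refine ⟨s + m, ?_⟩
  rwa [show (s + m) ^ 2 + B * (s + m) + A = s ^ 2 + B * s + (m ^ 2 + (A - B * m)) by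
    linear_combination (s * m + B * m) * CharTwo.two_eq_zero (R := k[X])]

theorem small_norm {A B : k[X]} (hB : B.Monic) (hA : A.natDegree < 2 * B.natDegree)
    (h0 : ∀ t u : k[X], u ≠ 0 → t ^ 2 + B * t * u + A * u ^ 2 ≠ 0) (M : ℕ) :
    ∃ t u : k[X], u ≠ 0 ∧ u.natDegree ≤ M ∧
      (t ^ 2 + B * t * u + A * u ^ 2).natDegree + M ≤ u.natDegree + B.natDegree := by
  have d1 : (X ^ (M + M) * B).natDegree = M + M + B.natDegree := by
    rw [(monic_X_pow _).natDegree_mul hB, natDegree_X_pow]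
  obtain ⟨s, hs⟩ := floor_root ((monic_X_pow (M + M)).mul hB) ((X ^ (M + M)) ^ 2 * A) (by
    refine natDegree_mul_le.trans_lt ?_
    rw [natDegree_pow, natDegree_X_pow, d1]; omega)
  let φ : degreeLT k (M + 1) →ₗ[k] (Fin M → k) := LinearMap.pi fun i =>
    lcoeff k (M + i) ∘ₗ LinearMap.mulRight k s ∘ₗ (degreeLT k (M + 1)).subtype
  obtain ⟨⟨u, hu⟩, h1, h2⟩ := Submodule.exists_mem_ne_zero_of_ne_bot (LinearMap.ker_ne_bot_of_finrank_lt
    (f := φ) (by rw [(degreeLTEquiv k (M + 1)).finrank_eq]; simp))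
  have u0 : u ≠ 0 := fun e => h2 (Subtype.ext e)
  have u1 : u.natDegree ≤ M := Nat.lt_succ_iff.1 ((natDegree_lt_iff_degree_lt u0).2 (mem_degreeLT.1 hu))
  have e := modByMonic_add_div (u * s) (X ^ (M + M))
  have r1 := degree_modByMonic_lt (u * s) (monic_X_pow (M + M))
  generalize u * s %ₘ X ^ (M + M) = ρ at e r1
  generalize u * s /ₘ X ^ (M + M) = t at e
  have r2 : ρ.natDegree ≤ M := natDegree_le_iff_coeff_eq_zero.2 fun j hj => by
    rcases lt_or_ge j (M + M) with h | h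
    · have := congrFun (LinearMap.mem_ker.1 h1) ⟨j - M, by omega⟩
      simp only [φ, LinearMap.pi_apply, LinearMap.comp_apply, Submodule.subtype_apply,
        LinearMap.mulRight_apply, lcoeff_apply, Pi.zero_apply, Nat.add_sub_cancel' hj.le] at this
      rwa [← e, coeff_add, coeff_X_pow_mul', if_neg (by omega), add_zero] at this
    · exact coeff_eq_zero_of_degree_lt (r1.trans_le (by rw [degree_X_pow]; exact_mod_cast h))
  refine ⟨t, u, u0, u1, ?_⟩
  have e2 : (X ^ (M + M)) ^ 2 * (t ^ 2 + B * t * u + A * u ^ 2) =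
      u ^ 2 * (s ^ 2 + X ^ (M + M) * B * s + (X ^ (M + M)) ^ 2 * A) + (ρ ^ 2 + X ^ (M + M) * B * u * ρ) := by
    linear_combination (X ^ (M + M) * t + u * s - ρ + X ^ (M + M) * B * u) * e -
      (u * s * ρ + X ^ (M + M) * B * u * ρ) * CharTwo.two_eq_zero (R := k[X])
  have e3 := congrArg natDegree e2
  rw [((monic_X_pow _).pow 2).natDegree_mul' (h0 t u u0), natDegree_pow, natDegree_X_pow] at e3
  have b1 := natDegree_add_le (u ^ 2 * (s ^ 2 + X ^ (M + M) * B * s + (X ^ (M + M)) ^ 2 * A))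
    (ρ ^ 2 + X ^ (M + M) * B * u * ρ)
  have b2 := natDegree_add_le (ρ ^ 2) (X ^ (M + M) * B * u * ρ)
  have b3 := natDegree_mul_le (p := u ^ 2) (q := s ^ 2 + X ^ (M + M) * B * s + (X ^ (M + M)) ^ 2 * A)
  have b4 := natDegree_mul_le (p := X ^ (M + M) * B * u) (q := ρ)
  have b5 := natDegree_mul_le (p := X ^ (M + M) * B) (q := u)
  rw [natDegree_pow] at b2 b3
  omega

theorem exists_unit [Finite k] {A B : k[X]} (hB : B.Monic) (hA : A.natDegree < 2 * B.natDegree)
    (h0 : ∀ t u : k[X], u ≠ 0 → t ^ 2 + B * t * u + A * u ^ 2 ≠ 0) :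
    ∃ t u : k[X], u ≠ 0 ∧ t ^ 2 + B * t * u + A * u ^ 2 = 1 := by
  classical
  choose t u u0 u1 u2 using small_norm hB hA h0
  obtain ⟨r, hr⟩ : ∃ r : ℕ → k[X], r = fun M => t M ^ 2 + B * t M * u M + A * u M ^ 2 := ⟨_, rfl⟩
  have r0 : ∀ M, r M ≠ 0 := fun M => hr ▸ h0 _ _ (u0 M)
  have r1 : ∀ M, r M ∈ degreeLT k (B.natDegree + 1) := fun M => mem_degreeLT.2
    ((natDegree_lt_iff_degree_lt (r0 M)).1 (by have := u1 M; have := u2 M; rw [hr]; dsimp only; omega))
  have r2 : ∀ M p, p % r M ∈ degreeLT k (B.natDegree + 1) := fun M p => mem_degreeLT.2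
    ((degree_mod_lt p (r0 M)).trans (mem_degreeLT.1 (r1 M)))
  have : Finite (degreeLT k (B.natDegree + 1)) := .of_equiv _ (degreeLTEquiv k _).toEquiv.symm
  obtain ⟨y, hy⟩ := Finite.exists_infinite_fiber fun M =>
    ((⟨_, r1 M⟩, ⟨_, r2 M (t M)⟩, ⟨_, r2 M (u M)⟩) : degreeLT k _ × degreeLT k _ × degreeLT k _)
  obtain ⟨i, hi, -⟩ := (Set.infinite_coe_iff.1 hy).exists_gt 0
  obtain ⟨j, hj, hij⟩ := (Set.infinite_coe_iff.1 hy).exists_gt ((u i).natDegree + B.natDegree)
  have e := (Set.mem_preimage.1 hi).trans (Set.mem_preimage.1 hj).symm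
  simp only [Prod.mk.injEq, Subtype.mk.injEq] at e
  obtain ⟨e1, e2, e3⟩ := e
  rw [← e1] at e2 e3
  have ne : u i ≠ u j := fun e => by have := u2 j; rw [e] at hij; omega
  obtain ⟨p, hp⟩ : ∃ p, t j = t i + r i * p := ⟨t j / r i - t i / r i, by
    linear_combination EuclideanDomain.div_add_mod (t i) (r i) - EuclideanDomain.div_add_mod (t j) (r i) - e2⟩
  obtain ⟨q, hq⟩ : ∃ q, u j = u i + r i * q := ⟨u j / r i - u i / r i, by
    linear_combination EuclideanDomain.div_add_mod (u i) (r i) - EuclideanDomain.div_add_mod (u j) (r i) - e3⟩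
  have ni : t i ^ 2 + B * t i * u i + A * u i ^ 2 = r i := by rw [hr]
  have nj : t j ^ 2 + B * t j * u j + A * u j ^ 2 = r i := by rw [e1, hr]
  have hT : r i * (1 + t i * p + B * t i * q + A * u i * q) = t i * t j + B * t i * u j + A * u i * u j := by
    rw [hp, hq]; linear_combination -ni
  have hU : r i * (u i * p - t i * q) = u i * t j - t i * u j := by rw [hp, hq]; ring
  generalize 1 + t i * p + B * t i * q + A * u i * q = T at hT
  generalize u i * p - t i * q = U at hU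
  have hN : T ^ 2 + B * T * U + A * U ^ 2 = 1 := mul_left_cancel₀ (pow_ne_zero 2 (r0 i)) (by
    rw [show r i ^ 2 * (T ^ 2 + B * T * U + A * U ^ 2) = (r i * T) ^ 2 + B * (r i * T) * (r i * U) +
      A * (r i * U) ^ 2 by ring, hT, hU]
    linear_combination (t j ^ 2 + B * t j * u j + A * u j ^ 2) * ni + r i * nj)
  refine ⟨T, U, fun e => ne (mul_left_cancel₀ (r0 i) ?_), hN⟩
  have T1 : T = 1 := sub_eq_zero.1 (pow_eq_zero_iff two_ne_zero |>.1 (show (T - 1) ^ 2 = 0 by
    rw [e] at hN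
    linear_combination hN + (1 - T) * CharTwo.two_eq_zero (R := k[X])))
  rw [e] at hU; rw [T1] at hT
  linear_combination -u i * nj - u j * hT - (t j + B * u j) * hU

end H16w
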