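import Pool.Agent.MP_070445_nt.W16.Add

open Polynomial Finset

namespace H16w

variable {F : Type} [Field F] [CharP F 2]

omit [CharP F 2] in
theorem wp_deg (U : F[X]) : (U ^ 2 + U).natDegree = 2 * U.natDegree := by
  rcases Nat.eq_zero_or_pos U.natDegree with h | h
  · rw [h, eq_C_of_natDegree_eq_zero h, ← C_pow, ← C_add, natDegree_C]
  · rw [natDegree_add_eq_left_of_natDegree_lt (by rw [natDegree_pow]; omega), natDegree_pow]

theorem zero_or_one {R : Type} [CommRing R] [IsDomain R] [CharP R 2] {d : R} (h : d ^ 2 + d = 0) :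
    d = 0 ∨ d = 1 :=
  (mul_eq_zero.1 (show d * (d + 1) = 0 by linear_combination h)).imp_right CharTwo.add_eq_zero.1

variable {L : F[X]}

theorem on_pt {c s y : F} {V : F[X]} (hV : V ^ 2 + V = (L + C c) ^ 3 + L ^ 3)
    (hy : y ^ 2 + y = L.eval s ^ 3) : (y + V.eval s) ^ 2 + (y + V.eval s) = (L.eval s + c) ^ 3 := by
  have := congrArg (eval s) hV
  simp only [eval_add, eval_pow, eval_C] at this
  linear_combination hy + this + (y * V.eval s + L.eval s ^ 3) * CharTwo.two_eq_zero (R := F)

variable [IsAlgClosed F] [DecidableEq F]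

theorem not_inv (h : Good L) {c d : F} {U V : F[X]} (hU : U ^ 2 + U = (L + C c) ^ 3 + L ^ 3)
    (hV : V ^ 2 + V = (L + C d) ^ 3 + L ^ 3) (he : (c + d) ^ 4 ≠ c + d) :
    ∃ v, L.eval v = 0 ∧ U.comp (X + C v) + U ≠ V.comp (X + C v) + V := by
  by_contra hc
  push Not at hc
  have t := CharTwo.two_eq_zero (R := F[X])
  obtain ⟨q, hq⟩ := h.inv 0 (U + V) fun v hv => by
    rw [add_comp]; linear_combination hc v hv + (V.comp (X + C v) - U) * t
  rw [C_0, add_zero] at hq
  have e : (q ^ 2 + q - (C (c + d) * X ^ 2 + C ((c + d) ^ 2) * X + C (c ^ 3 + d ^ 3))).comp L = 0 := by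
    simp only [sub_comp, add_comp, mul_comp, pow_comp, C_comp, X_comp, ← hq, map_add, map_pow]
    linear_combination hU + hV + (U * V + 2 * L ^ 3 + (C c + C d) * L ^ 2 + (C c ^ 2 + C d ^ 2) * L -
      C c * C d * L) * t
  have e1 := sub_eq_zero.1 ((comp_eq_zero_iff.1 e).resolve_right fun e => by
    have := congrArg natDegree e.2
    rw [natDegree_C] at this
    exact h.pos.ne' this)
  have e2 : q.natDegree ≤ 1 := by
    have : (q ^ 2 + q).natDegree ≤ 2 := by rw [e1]; compute_degree
    rw [wp_deg] at this; omega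
  obtain ⟨a, b, rfl⟩ := exists_eq_X_add_C_of_natDegree_le_one e2
  have e3 : C (a ^ 2 - (c + d)) * X ^ 2 + C (a - (c + d) ^ 2) * X +
      C (b ^ 2 + b - (c ^ 3 + d ^ 3)) = 0 := by
    simp only [map_add, map_pow, map_sub] at e1 ⊢
    linear_combination e1 - C a * X * C b * t
  have k2 := congrArg (coeff · 2) e3
  have k1 := congrArg (coeff · 1) e3
  simp only [coeff_add, coeff_C_mul, coeff_X_pow, coeff_X, coeff_C, coeff_zero] at k1 k2
  norm_num at k1 k2
  exact he (by linear_combination k2 - (a + (c + d) ^ 2) * k1)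

theorem indep {ι : Type} (h : Good L) (c : ι → F) (V : ι → F[X]) (S : Finset ι) (h0 : S.Nonempty)
    (hV : ∀ i ∈ S, V i ^ 2 + V i = (L + C (c i)) ^ 3 + L ^ 3)
    (hc : ∀ i ∈ S, ∀ j ∈ S, i ≠ j → (c i + c j) ^ 4 ≠ c i + c j) :
    ∃ s y, y ^ 2 + y = L.eval s ^ 3 ∧ ∑ i ∈ S, pt (L.eval s + c i) (y + (V i).eval s) ≠ 0 := by
  classical
  induction S using Finset.strongInduction with
  | H S ih =>
  obtain ⟨i, hi⟩ := h0
  by_cases h1 : ∀ j ∈ S, j = i
  · obtain ⟨y, hy⟩ := as_root (L.eval 0 ^ 3)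
    refine ⟨0, y, hy, ?_⟩
    rw [sum_eq_single_of_mem i hi fun j hj hji => absurd (h1 j hj) hji]
    exact pt_ne (on_pt (hV i hi) hy)
  push Not at h1
  obtain ⟨j, hj, hji⟩ := h1
  obtain ⟨v, hv, hne⟩ := not_inv h (hV j hj) (hV i hi) (hc j hj i hi hji)
  have t := CharTwo.two_eq_zero (R := F[X])
  have t' := CharTwo.two_eq_zero (R := F)
  have dl : ∀ l ∈ S, (V l).comp (X + C v) + V l = 0 ∨ (V l).comp (X + C v) + V l = 1 := fun l hl => by
    have := congrArg (·.comp (X + C v)) (hV l hl)
    simp only [add_comp, pow_comp, C_comp, h.comp, hv, C_0, add_zero] at this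
    exact zero_or_one (by
      linear_combination this + hV l hl + ((V l).comp (X + C v) * V l + (L + C (c l)) ^ 3 + L ^ 3) * t)
  obtain ⟨s, y, hy, hs⟩ := ih (S.filter fun l => (V l).comp (X + C v) + V l = (V i).comp (X + C v) + V i)
    (filter_ssubset.2 ⟨j, hj, hne⟩) ⟨i, mem_filter.2 ⟨hi, rfl⟩⟩ (fun l hl => hV l (mem_filter.1 hl).1)
    fun a ha b hb => hc a (mem_filter.1 ha).1 b (mem_filter.1 hb).1
  by_contra hall
  push Not at hall
  have l1 : L.eval (s + v) = L.eval s := by rw [h.add, hv, add_zero]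
  have a1 := hall s y hy
  have a2 := hall (s + v) (y + ((V i).comp (X + C v) + V i).eval s) (by
    rw [l1]
    rcases dl i hi with e | e <;> rw [e]
    · simpa using hy
    · rw [eval_one]; exact on_succ hy)
  refine hs (two_inj ?_)
  have a3 := congrArg₂ (· + ·) a1 a2
  simp only [add_zero, ← sum_add_distrib] at a3
  rw [← sum_add_distrib, sum_filter]
  refine Eq.trans ?_ a3
  refine sum_congr rfl fun l hl => ?_
  have ev : (V l).eval (s + v) = ((V l).comp (X + C v) + V l).eval s + (V l).eval s := by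
    simp only [eval_add, eval_comp, eval_X, eval_C]
    linear_combination -(V l).eval s * t'
  rw [l1, ev]
  split_ifs with e
  · rw [e, ← add_assoc (y + _), add_assoc y, CharTwo.add_self_eq_zero, add_zero]
  · rw [show y + ((V i).comp (X + C v) + V i).eval s + (((V l).comp (X + C v) + V l).eval s +
      (V l).eval s) = y + (V l).eval s + 1 by
        rcases dl i hi with e1 | e1 <;> rcases dl l hl with e2 | e2 <;> rw [e1, e2] at e ⊢ <;>
          first | exact absurd rfl e | (simp only [eval_zero, eval_one]; ring),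
      pt_neg (on_pt (hV l hl) hy), add_neg_cancel]

theorem exists_det {ι : Type} (h : Good L) (c : ι → F) (V : ι → F[X]) (S : Finset ι) (h0 : S.Nonempty)
    (hV : ∀ i ∈ S, V i ^ 2 + V i = (L + C (c i)) ^ 3 + L ^ 3)
    (hc : ∀ i ∈ S, ∀ j ∈ S, i ≠ j → (c i + c j) ^ 4 ≠ c i + c j) (Ψ : F →+* F)
    (h1 : ∀ i ∈ S, Ψ (c i) = c i) (h2 : ∀ i ∈ S, (V i).map Ψ = V i) :
    ∃ P : F[X], P ≠ 0 ∧ P.natDegree ≤ (S.card - 1) / 2 * L.natDegree ∧ P.map Ψ = P ∧
      ∀ s y, y ^ 2 + y = L.eval s ^ 3 → ∑ i ∈ S, pt (L.eval s + c i) (y + (V i).eval s) = 0 →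
        P.eval s = 0 := by
  classical
  have pos := h0.card_pos
  obtain ⟨p, hp⟩ : ∃ p, p = S.card / 2 + 1 := ⟨_, rfl⟩
  obtain ⟨q, hq⟩ : ∃ q, q = (S.card - 1) / 2 := ⟨_, rfl⟩
  let ε : Fin p ⊕ Fin q ≃ S := Fintype.equivOfCardEq (by simp; omega)
  let M : Matrix (Fin p ⊕ Fin q) (Fin p ⊕ Fin q) F[X] := Matrix.of fun i j =>
    Sum.elim (fun a : Fin p => C (c (ε i) ^ (a : ℕ))) (fun b : Fin q => C (c (ε i) ^ (b : ℕ)) * V (ε i)) j
  have key : ∀ s y, y ^ 2 + y = L.eval s ^ 3 →
      (∑ i ∈ S, pt (L.eval s + c i) (y + (V i).eval s) = 0 ↔ M.det.eval s = 0) := fun s y hy => by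
    rw [crit S _ _ (fun i hi => on_pt (hV i hi) hy) fun i hi j hj e => by
      by_contra hij
      refine hc i hi j hj hij ?_
      rw [add_left_cancel e, CharTwo.add_self_eq_zero, zero_pow four_ne_zero],
      show M.det.eval s = _ from (evalRingHom s).map_det M, ← Matrix.exists_mulVec_eq_zero_iff, ← hp, ← hq]
    have mv : ∀ (w : Fin p ⊕ Fin q → F) i, ((evalRingHom s).mapMatrix M).mulVec w i =
        ∑ a : Fin p, w (.inl a) * c (ε i) ^ (a : ℕ) +
          (∑ b : Fin q, w (.inr b) * c (ε i) ^ (b : ℕ)) * (V (ε i)).eval s := fun w i => by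
      simp [Matrix.mulVec, dotProduct, M, mul_comm, mul_assoc, mul_sum]
    have dc : ∀ (a : F[X]) (x : F), (a.comp (X + C x)).degree = a.degree := fun a x => by
      rw [← taylor_apply, degree_taylor]
    have pq : ((q : ℕ) : WithBot ℕ) ≤ p := by exact_mod_cast (by omega : q ≤ p)
    constructor
    · rintro ⟨a, b, n0, da, db, hab⟩
      have m1 : (a + C y * b).comp (X + C (L.eval s)) ∈ degreeLT F p := by
        rw [mem_degreeLT, dc]
        exact (degree_add_le _ _).trans_lt (max_lt da (((smul_eq_C_mul y ▸ degree_smul_le y b :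
          (C y * b).degree ≤ b.degree).trans_lt db).trans_le pq))
      have m2 : b.comp (X + C (L.eval s)) ∈ degreeLT F q := by rwa [mem_degreeLT, dc]
      refine ⟨Sum.elim (degreeLTEquiv F p ⟨_, m1⟩) (degreeLTEquiv F q ⟨_, m2⟩), fun e => ?_,
        funext fun i => ?_⟩
      · have e1 := congrArg Subtype.val ((degreeLTEquiv F p).map_eq_zero_iff.1
          (funext fun a => congrFun e (.inl a)) : (⟨_, m1⟩ : degreeLT F p) = 0)
        have e2 := congrArg Subtype.val ((degreeLTEquiv F q).map_eq_zero_iff.1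
          (funext fun a => congrFun e (.inr a)) : (⟨_, m2⟩ : degreeLT F q) = 0)
        have b0 : b = 0 := by
          rw [← degree_eq_bot, ← dc b (L.eval s), degree_eq_bot]; exact e2
        have a0 : a + C y * b = 0 := by
          rw [← degree_eq_bot, ← dc _ (L.eval s), degree_eq_bot]; exact e1
        rw [b0, mul_zero, add_zero] at a0
        tauto
      · rw [mv]
        simp only [Sum.elim_inl, Sum.elim_inr, ← eval_eq_sum_degreeLTEquiv, eval_comp, eval_add,
          eval_mul, eval_X, eval_C, add_comm (c _), Pi.zero_apply]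
        linear_combination hab (ε i) (ε i).2
    · rintro ⟨w, w0, hw⟩
      obtain ⟨⟨a, ma⟩, ha⟩ := (degreeLTEquiv F p).surjective fun a => w (.inl a)
      obtain ⟨⟨b, mb⟩, hb⟩ := (degreeLTEquiv F q).surjective fun a => w (.inr a)
      refine ⟨(a - C y * b).comp (X + C (-L.eval s)), b.comp (X + C (-L.eval s)), ?_, ?_, ?_,
        fun i hi => ?_⟩
      · by_contra hn
        simp only [not_or, not_not, ← degree_eq_bot, dc] at hn
        obtain rfl := degree_eq_bot.1 hn.2
        rw [mul_zero, sub_zero] at hn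
        obtain rfl := degree_eq_bot.1 hn.1
        refine w0 (funext fun j => ?_)
        rcases j with j | j
        · exact (congrFun ha j).symm.trans (congrFun (map_zero (degreeLTEquiv F p)) j)
        · exact (congrFun hb j).symm.trans (congrFun (map_zero (degreeLTEquiv F q)) j)
      · rw [dc]
        exact (degree_sub_le _ _).trans_lt (max_lt (mem_degreeLT.1 ma) (((smul_eq_C_mul y ▸
          degree_smul_le y b : (C y * b).degree ≤ b.degree).trans_lt (mem_degreeLT.1 mb)).trans_le pq))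
      · rw [dc]; exact mem_degreeLT.1 mb
      · have := congrFun hw (ε.symm ⟨i, hi⟩)
        rw [mv, Equiv.apply_symm_apply] at this
        have e1 := eval_eq_sum_degreeLTEquiv ma (c i)
        have e2 := eval_eq_sum_degreeLTEquiv mb (c i)
        rw [ha] at e1; rw [hb] at e2
        simp only [← e1, ← e2, Pi.zero_apply] at this
        simp only [eval_comp, eval_add, eval_sub, eval_mul, eval_X, eval_C, add_neg_cancel_comm]
        linear_combination this
  refine ⟨M.det, fun e => ?_, ?_, ?_, fun s y hy => (key s y hy).1⟩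
  · obtain ⟨s, y, hy, hs⟩ := indep h c V S h0 hV hc
    exact hs ((key s y hy).2 (by rw [e, eval_zero]))
  · have dV : ∀ i ∈ S, (V i).natDegree ≤ L.natDegree := fun i hi => by
      have e : (V i ^ 2 + V i).natDegree ≤ 2 * L.natDegree := by
        rw [hV i hi, show (L + C (c i)) ^ 3 + L ^ 3 = C (c i) * L ^ 2 + C (c i) ^ 2 * L + C (c i) ^ 3 by
          linear_combination (L ^ 3 + C (c i) * L ^ 2 + C (c i) ^ 2 * L) *
            CharTwo.two_eq_zero (R := F[X])]
        compute_degree!
        omega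
      rw [wp_deg] at e; omega
    rw [Matrix.det_apply', ← hq]
    refine natDegree_sum_le_of_forall_le _ _ fun σ _ => natDegree_mul_le.trans ?_
    rw [natDegree_intCast, zero_add]
    refine (natDegree_prod_le _ _).trans ?_
    rw [Fintype.sum_sum_type]
    simp only [M, Matrix.of_apply, Sum.elim_inl, Sum.elim_inr, natDegree_C, sum_const_zero, zero_add]
    exact (sum_le_card_nsmul _ _ L.natDegree fun b _ => (natDegree_C_mul_le _ _).trans
      (dV _ (ε _).2)).trans (by simp)
  · rw [← coe_mapRingHom, RingHom.map_det]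
    refine congrArg Matrix.det (Matrix.ext fun i j => ?_)
    rcases j with j | j <;> simp [M, h1 _ (ε i).2, h2 _ (ε i).2]

end H16w
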