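import Pool.Agent.MP_070445_nt.W16.Prim
import Pool.Agent.MP_070445_nt.W16.Ex

open Polynomial Finset

namespace H16w

variable {F : Type} [Field F]

theorem root_count {P : F[X]} (h0 : P ≠ 0) (m : ℕ) (x : ℕ → F) (hx : Set.InjOn x (range m))
    (h : ∀ i, P.eval (x i) = 0) : m ≤ P.natDegree := by
  have := natDegree_le_of_dvd (card_le (range m) x hx fun i _ => h i) h0
  rwa [natDegree_prod_of_monic _ _ fun i _ => monic_X_sub_C _, sum_congr rfl fun i _ =>
    natDegree_X_sub_C (x i), sum_const, smul_eq_mul, mul_one, card_range] at this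

theorem inj_of {z : F} {m a : ℕ} (h : ∀ a b : ℕ, z ^ 2 ^ a = z ^ 2 ^ b ↔ a ≡ b [MOD m])
    (hc : m.Coprime a) : Set.InjOn (fun i => z ^ 2 ^ (a * i)) (range m) := fun i hi j hj e =>
  Nat.ModEq.eq_of_lt_of_lt (Nat.ModEq.cancel_left_of_coprime hc ((h _ _).1 e))
    (by simpa using hi) (by simpa using hj)

variable [CharP F 2]

theorem fix_V {L V : F[X]} {c : F} (Φ : F →+* F) (hL : L.map Φ = L) (hc : Φ c = c)
    (hV : V ^ 2 + V = (L + C c) ^ 3 + L ^ 3) : V.map (Φ.comp Φ) = V := by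
  have := congrArg (Polynomial.map Φ) hV
  simp only [Polynomial.map_add, Polynomial.map_pow, hL, map_C, hc] at this
  have t := CharTwo.two_eq_zero (R := F[X])
  rw [← Polynomial.map_map]
  rcases zero_or_one (d := V.map Φ + V) (by
    linear_combination this + hV + (V.map Φ * V + (L + C c) ^ 3 + L ^ 3) * t) with e | e
  · rw [CharTwo.add_eq_zero.1 e, CharTwo.add_eq_zero.1 e]
  · have e1 : V.map Φ = V + 1 := by linear_combination e - V * t
    rw [e1, Polynomial.map_add, e1, Polynomial.map_one]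
    linear_combination t

theorem core [IsAlgClosed F] (j : ℕ) (hj : 2 ≤ j) : ∃ (e : ℕ) (T : Finset ℕ), (∀ i ∈ T, i ≤ e) ∧ e ∈ T ∧
    e + 1 ≤ 3 * j + 2 ∧ 2 ^ (j + 1) - 1 ≤ 2 ^ (e + 1) ∧ ∀ (a b : F[X]) (κ : F) (N : ℕ), κ ≠ 0 → N ≠ 0 →
      b.eval 0 ≠ 0 → a ^ 2 + a * b + b ^ 2 * fp F T = C κ * X ^ N → 2 ^ (2 ^ (j + 1) - 1) ≤ N := by
  classical
  let _ : Algebra (ZMod 2) F := ZMod.algebra _ 2
  obtain ⟨l1, a1, a2, a3, a4, ⟨t0, t1, t2⟩, a5⟩ := prim (F := F) (2 * j + 1) (by omega)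
  obtain ⟨l2, b1, b2, b3, b4, ⟨c0, c1, c2⟩, b5⟩ := prim (F := F) (j + 1) (by omega)
  have dl := a1.natDegree_mul b1
  obtain ⟨e, T, e1, e2, e3, e4⟩ := ker_iff (F := F) (a1.mul b1)
    (by rw [mul_coeff_zero]; exact mul_ne_zero a2 b2) (by omega)
  obtain ⟨e', T', f1, f2, f3, f4⟩ := ker_iff (F := F) b1 b2 b3
  have cop : (2 ^ (2 * j + 1) - 1).Coprime (2 ^ (j + 1) - 1) := by
    rw [Nat.Coprime, Nat.pow_sub_one_gcd_pow_sub_one, show (2 * j + 1).gcd (j + 1) = 1 by
      rw [show 2 * j + 1 = j + (j + 1) by ring]; simp]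
    rfl
  have odd : ∀ n, (2 ^ (n + 1) - 1).Coprime 2 := fun n => by
    have := Nat.one_le_two_pow (n := n)
    exact (Nat.coprime_two_right).2 ⟨2 ^ n - 1, by rw [pow_succ]; omega⟩
  have A4 : 2 ^ 2 ≤ 2 ^ j := Nat.pow_le_pow_right two_pos hj
  have hm : 2 ^ (2 * j + 1) - 1 + 1 = 2 * (2 ^ j * 2 ^ j) := by
    rw [Nat.sub_add_cancel Nat.one_le_two_pow]; ring
  have hm2 : 2 ^ (j + 1) - 1 + 1 = 2 * 2 ^ j := by rw [Nat.sub_add_cancel Nat.one_le_two_pow]; ring
  have o1 := odd (2 * j)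
  have o2 := odd j
  generalize 2 ^ (2 * j + 1) - 1 = m at *
  generalize 2 ^ (j + 1) - 1 = m2 at *
  refine ⟨e, T, e2, e3, by omega, ?_, fun a b κ N hκ hN hb hn => ?_⟩
  · have d : (X ^ 2 ^ (e + 1) + ∑ i ∈ T, X ^ 2 ^ (e - i) : F[X]).natDegree = 2 ^ (e + 1) := by
      rw [natDegree_add_eq_left_of_natDegree_lt, natDegree_X_pow]
      rw [natDegree_X_pow]
      exact (natDegree_sum_le_of_forall_le _ _ fun i _ => (natDegree_X_pow_le _).trans
        (Nat.pow_le_pow_right two_pos (Nat.sub_le e i))).trans_lt (Nat.pow_lt_pow_right one_lt_two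
          e.lt_succ_self)
    rw [← d]
    refine root_count (fun h => ?_) _ _ (inj_of (b5 c0 c1 c2) (a := 1) (by simp)) fun i => ?_
    · rw [h, natDegree_zero] at d; exact absurd d (by positivity)
    · have := (e4 (c0 ^ 2 ^ (1 * i))).1 (by
        rw [map_mul, Module.End.mul_apply, aeval_pow _ c2, map_zero])
      simpa only [Ker, eval_add, eval_pow, eval_X, eval_finsetSum] using this
  have t := CharTwo.two_eq_zero (R := F[X])
  obtain ⟨V0, hV0⟩ := exists_V e2 ((e4 (t0 + c0)).1 (by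
    rw [map_add, map_mul, Module.End.mul_apply _ _ c0, c2, map_zero, add_zero, ← map_mul, mul_comm,
      map_mul, Module.End.mul_apply, t2, map_zero]))
  obtain ⟨y0, y1, y2⟩ := (good_Lp e2 e3).push (c := t0 + c0) (α := a + b * (V0 + Mp F T * Lp F T))
    hκ hN hb (by
      have hL : Lp F T = X + Mp F T ^ 2 := rfl
      rw [fp] at hn
      linear_combination hn + b ^ 2 * hV0 + b ^ 2 * Lp F T ^ 2 * hL + (a * b * (V0 + Mp F T * Lp F T) +
        b ^ 2 * V0 * Mp F T * Lp F T + b ^ 2 * (Lp F T + C (t0 + c0)) ^ 3 +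
        b ^ 2 * Mp F T ^ 2 * Lp F T ^ 2) * t)
  have G := good_Lp (F := F) f2 f3
  obtain ⟨c, hc⟩ : ∃ c : ℕ → F, c = fun i => c0 ^ 2 ^ (2 * m * i) := ⟨_, rfl⟩
  have ck : ∀ i, aeval (fr F) l2 (c i) = 0 := fun i => hc ▸ aeval_pow _ c2 _
  choose V hV using fun i => exists_V f2 ((f4 _).1 (ck i))
  obtain ⟨s0, s1⟩ := IsAlgClosed.exists_root (Lp F T' - C t0) (natDegree_pos_iff_degree_pos.1 (by
    rw [natDegree_sub_C]; exact G.pos)).ne'
  rw [IsRoot, eval_sub, eval_C, sub_eq_zero] at s1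
  obtain ⟨η, hη⟩ := as_root ((Lp F T').eval s0 ^ 3)
  have mul : ∀ i, ∃ z : ℤ, pt ((Lp F T').eval s0 + c i) (η + (V i).eval s0) = z • pt (t0 + c0) y0 :=
    fun i => by
      obtain ⟨p1, p2⟩ := pt_pow y1 (m * i)
      have p3 := on_pt (hV i) hη
      rw [show (t0 + c0) ^ 4 ^ (m * i) = (Lp F T').eval s0 + c i by
        rw [show 4 = 2 ^ 2 from rfl, ← pow_mul, add_pow_char_pow, s1, hc, ← mul_assoc,
          (a5 t0 t1 t2 _ 0).2 (Nat.modEq_zero_iff_dvd.2 ⟨2 * i, by ring⟩), pow_zero, pow_one]] at p1 p2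
      have t' := CharTwo.two_eq_zero (R := F)
      rcases zero_or_one (d := η + (V i).eval s0 + y0 ^ 4 ^ (m * i)) (by
        linear_combination p1 + p3 + ((η + (V i).eval s0) * y0 ^ 4 ^ (m * i) +
          ((Lp F T').eval s0 + c i) ^ 3) * t') with e | e
      · exact ⟨_, by rw [CharTwo.add_eq_zero.1 e, p2]⟩
      · exact ⟨-_, by rw [show η + (V i).eval s0 = y0 ^ 4 ^ (m * i) + 1 by
          linear_combination e - y0 ^ 4 ^ (m * i) * t', pt_neg p1, p2, neg_smul]⟩
  choose z hz using mul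
  by_contra hlt
  have : NeZero N := ⟨hN⟩
  obtain ⟨I, hI, J, hJ, hIJ, h⟩ := exists_ne_map_eq_of_card_lt_of_maps_to (s := (range m2).powerset)
    (t := (univ : Finset (ZMod N))) (by rw [card_univ, ZMod.card, card_powerset, card_range]; omega)
    (f := fun I => ((∑ i ∈ I, z i : ℤ) : ZMod N)) fun _ _ => mem_univ _
  obtain ⟨w, hw⟩ := (ZMod.intCast_eq_intCast_iff_dvd_sub _ _ _).1 h.symm
  have sub : I \ J ∪ J \ I ⊆ range m2 := union_subset (sdiff_subset.trans (mem_powerset.1 hI))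
    (sdiff_subset.trans (mem_powerset.1 hJ))
  have hV' : ∀ i, (if i ∈ I then V i else V i + 1) ^ 2 + (if i ∈ I then V i else V i + 1) =
      (Lp F T' + C (c i)) ^ 3 + Lp F T' ^ 3 := fun i => by
    split_ifs
    · exact hV i
    · linear_combination hV i + (V i + 1) * t
  have fx : ∀ i, iterateFrobenius F 2 m2 (c i) = c i := fun i => by
    rw [iterateFrobenius_def, hc, ← pow_mul, ← pow_add]
    exact (b5 c0 c1 c2 _ _).2 (by simp [Nat.ModEq])
  obtain ⟨P, P0, P1, P2, P3⟩ := exists_det G c (fun i => if i ∈ I then V i else V i + 1) (I \ J ∪ J \ I)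
    (nonempty_iff_ne_empty.2 fun e => hIJ (by
      rw [union_eq_empty, sdiff_eq_empty_iff_subset, sdiff_eq_empty_iff_subset] at e
      exact e.1.antisymm e.2))
    (fun i _ => hV' i) (fun i hi k hk hik e => by
      have n0 : c i + c k ≠ 0 := fun e => hik (inj_of (b5 c0 c1 c2) (o2.mul_right cop.symm)
        (sub hi) (sub hk) (by rw [← hc]; exact CharTwo.add_eq_zero.1 e))
      have := (b5 _ n0 (by rw [map_add, ck, ck, add_zero]) 2 0).1 (by simpa using e)
      have := Nat.le_of_dvd two_pos (Nat.modEq_zero_iff_dvd.1 this)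
      omega)
    ((iterateFrobenius F 2 m2).comp (iterateFrobenius F 2 m2)) (fun i _ => by
      rw [RingHom.comp_apply, fx, fx]) fun i _ => fix_V _ (Lp_map _ _) (fx i) (hV' i)
  have r0 := P3 s0 η hη (by
    rw [sum_union disjoint_sdiff_sdiff, sum_congr rfl (g := fun i => z i • pt (t0 + c0) y0) fun i hi => by
      rw [if_pos (mem_sdiff.1 hi).1, hz], sum_congr rfl (s₁ := J \ I)
        (g := fun i => -(z i • pt (t0 + c0) y0)) fun i hi => by
      rw [if_neg (mem_sdiff.1 hi).2, eval_add, eval_one, ← add_assoc, pt_neg (on_pt (hV i) hη), hz],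
      sum_neg_distrib, ← sub_eq_add_neg, sum_sdiff_sub_sum_sdiff, ← sum_smul, ← sum_smul, ← sub_smul,
      hw, mul_comm, mul_smul, natCast_zsmul, y2, smul_zero])
  have cnt := root_count P0 m (fun i => s0 ^ 2 ^ (2 * m2 * i)) (fun i hi k hk e => by
    have ev : ∀ n, (Lp F T').eval (s0 ^ 2 ^ n) = t0 ^ 2 ^ n := fun n => by
      have := eval_map_apply (p := Lp F T') (iterateFrobenius F 2 n) s0
      rwa [Lp_map, s1] at this
    exact inj_of (a5 t0 t1 t2) (o1.mul_right cop) hi hk (by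
      simpa only [ev] using congrArg (fun s => (Lp F T').eval s) e)) fun i => by
    induction i with
    | zero => simpa using r0
    | succ i ih =>
      have := eval_map_apply (p := P) ((iterateFrobenius F 2 m2).comp (iterateFrobenius F 2 m2))
        (s0 ^ 2 ^ (2 * m2 * i))
      rw [P2, ih, map_zero, RingHom.comp_apply, iterateFrobenius_def, iterateFrobenius_def,
        ← pow_mul, ← pow_mul, ← pow_add, ← pow_add] at this
      rwa [show 2 * m2 * (i + 1) = 2 * m2 * i + (m2 + m2) by ring]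
  have k1 := card_le_card sub
  have k2 : 2 ^ (e' + 1) ≤ 2 ^ (j + 1) := Nat.pow_le_pow_right two_pos (by omega)
  rw [card_range] at k1
  rw [(degs f2 f3).1.2] at P1
  have k3 := Nat.mul_le_mul (show ((I \ J ∪ J \ I).card - 1) / 2 + 1 ≤ 2 ^ j by omega) k2
  rw [pow_succ 2 j] at k3
  have k4 := Nat.one_lt_two_pow (n := e' + 1) (by omega)
  nlinarith

omit [CharP F 2] in
theorem refl_unit {A t u : F[X]} {a : F} {n : ℕ} (hA : A.natDegree < n + n) (hu : u ≠ 0)
    (h : t ^ 2 + X ^ n * t * u + A * u ^ 2 = C a) :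
    (reflect u.natDegree u).eval 0 ≠ 0 ∧
      reflect (n + u.natDegree) t ^ 2 + reflect (n + u.natDegree) t * reflect u.natDegree u +
        reflect u.natDegree u ^ 2 * reflect (n + n) A = C a * X ^ (n + u.natDegree + (n + u.natDegree)) := by
  have d1 : (X ^ n * u).natDegree ≤ n + u.natDegree :=
    natDegree_mul_le.trans (Nat.add_le_add_right (natDegree_X_pow_le n) _)
  have e1 : t.natDegree ≤ n + u.natDegree := by
    by_contra hc
    have a1 : (t * (X ^ n * u)).natDegree ≤ t.natDegree + (n + u.natDegree) :=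
      natDegree_mul_le.trans (Nat.add_le_add_left d1 _)
    have a2 : (A * u ^ 2).natDegree ≤ A.natDegree + 2 * u.natDegree :=
      natDegree_mul_le.trans (Nat.add_le_add_left natDegree_pow_le _)
    have a3 := natDegree_add_le (t * (X ^ n * u)) (A * u ^ 2)
    have := congrArg natDegree (show t ^ 2 + (t * (X ^ n * u) + A * u ^ 2) = C a by
      linear_combination h)
    rw [natDegree_add_eq_left_of_natDegree_lt (by rw [natDegree_pow]; omega), natDegree_pow,
      natDegree_C] at this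
    omega
  refine ⟨?_, ?_⟩
  · rw [← coeff_zero_eq_eval_zero, coeff_reflect, revAt_zero]
    exact leadingCoeff_ne_zero.2 hu
  · rw [← reflect_C, ← h, show X ^ n * t * u = t * (X ^ n * u) by ring, reflect_add, reflect_add,
      sq t, reflect_mul _ _ e1 e1, reflect_mul _ _ e1 d1,
      reflect_mul _ _ (natDegree_X_pow_le n) le_rfl, sq u,
      show n + u.natDegree + (n + u.natDegree) = n + n + (u.natDegree + u.natDegree) by ring,
      reflect_mul _ _ hA.le natDegree_mul_le, reflect_mul _ _ le_rfl le_rfl, reflect_monomial,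
      revAt_le le_rfl, Nat.sub_self]
    ring

omit [CharP F 2] in
theorem parity {a b f : F[X]} {D : ℕ} (hb : b ≠ 0) (hf : f.Monic) (hd : f.natDegree = 2 * D + 1) :
    a ^ 2 + a * b + b ^ 2 * f ≠ 0 := fun h => by
  have e := congrArg natDegree (show a * (a + b) = -(f * b ^ 2) by linear_combination h)
  rw [natDegree_neg, hf.natDegree_mul' (pow_ne_zero 2 hb), natDegree_pow, hd] at e
  rcases lt_or_ge b.natDegree a.natDegree with c | c
  · have c1 := natDegree_add_eq_left_of_natDegree_lt c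
    rw [natDegree_mul (ne_zero_of_natDegree_gt c) (ne_zero_of_natDegree_gt (c1 ▸ c)), c1] at e
    omega
  · have c1 := natDegree_mul_le (p := a) (q := a + b)
    have c2 := natDegree_add_le a b
    omega

theorem real_part (j n R : ℕ) (hj : 3 ≤ j) (h1 : n ≤ 2 ^ (3 * j + 2) + 1)
    (h2 : 2 ^ (2 ^ (j + 1) - 1) ≤ n + R + (n + R)) : (2 : ℝ) ^ ((n : ℝ) ^ (1 / 3 : ℝ)) ≤ R := by
  obtain ⟨d, hd⟩ : ∃ d, 2 ^ (j + 1) = d + 3 :=
    Nat.exists_eq_add_of_le' (le_trans (by norm_num) (Nat.pow_le_pow_right two_pos (Nat.succ_le_succ hj)))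
  have d0 : 2 ^ (3 + 1) ≤ d + 3 := hd ▸ Nat.pow_le_pow_right two_pos (Nat.succ_le_succ hj)
  have a0 : 2 * 2 ^ (3 * j + 2) = (d + 3) ^ 3 := by rw [← hd]; ring
  obtain ⟨c, rfl⟩ : ∃ c, d = c + 13 := ⟨d - 13, by omega⟩
  have a1 : n ≤ (c + 13) ^ 3 := by nlinarith [Nat.zero_le (c ^ 3), Nat.zero_le (c ^ 2)]
  have a2 : ∀ c : ℕ, (c + 13) ^ 3 ≤ 2 ^ (c + 13) := fun c => by
    induction c with
    | zero => norm_num
    | succ c ih =>
      rw [show c + 1 + 13 = c + 13 + 1 by ring, pow_succ 2]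
      nlinarith [Nat.zero_le (c ^ 3), Nat.zero_le (c ^ 2)]
  have a3 : 2 ^ (c + 13) ≤ R := by
    have := a2 c
    rw [hd, show c + 13 + 3 - 1 = c + 13 + 2 by omega, pow_add 2 (c + 13)] at h2
    omega
  have a4 : (n : ℝ) ^ (1 / 3 : ℝ) ≤ (c + 13 : ℕ) := by
    refine (Real.rpow_le_rpow (by positivity) (show (n : ℝ) ≤ ((c + 13 : ℕ) : ℝ) ^ 3 by
      exact_mod_cast a1) (by norm_num)).trans_eq ?_
    rw [one_div]
    exact Real.pow_rpow_inv_natCast (by positivity) three_ne_zero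
  refine (Real.rpow_le_rpow_of_exponent_le one_le_two a4).trans ?_
  rw [Real.rpow_natCast]
  exact_mod_cast a3

theorem main (k : Type) [Field k] [Finite k] [CharP k 2] (n₀ : ℕ) :
    ∃ A B : k[X], B.Monic ∧ n₀ ≤ B.natDegree ∧ A.natDegree < 2 * B.natDegree ∧
      IsCoprime B (derivative A ^ 2 + A * derivative B ^ 2) ∧
      (∃ t u : k[X], u ≠ 0 ∧ t ^ 2 + B * t * u + A * u ^ 2 = 1) ∧
      ∀ (t u : k[X]) (a : k), a ≠ 0 → u ≠ 0 → t ^ 2 + B * t * u + A * u ^ 2 = C a →
        (2 : ℝ) ^ ((B.natDegree : ℝ) ^ (1 / 3 : ℝ)) ≤ u.natDegree := by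
  obtain ⟨e, T, h1, h2, h3, h4, h5⟩ := core (F := AlgebraicClosure k) (n₀ + 3) (by omega)
  obtain ⟨-, f1, f2⟩ := degs (R := k) h1 h2
  have n0 : n₀ + 3 + 1 < 2 ^ (n₀ + 3 + 1) := Nat.lt_two_pow_self
  have n1 : 2 ^ (e + 1) ≤ 2 ^ (3 * (n₀ + 3) + 2) := Nat.pow_le_pow_right two_pos h3
  obtain ⟨n, hn⟩ : ∃ n, n = 2 ^ (e + 1) + 1 := ⟨_, rfl⟩
  have c0 : (reflect (n + n) (fp k T)).coeff 0 = 0 := by
    rw [coeff_reflect, revAt_zero]; exact coeff_eq_zero_of_natDegree_lt (by omega)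
  have c1 : (reflect (n + n) (fp k T)).coeff 1 = 1 := by
    rw [coeff_reflect, revAt_le (by omega), show n + n - 1 = (fp k T).natDegree by omega]
    exact f1
  have dA : (reflect (n + n) (fp k T)).natDegree < n + n := by
    refine lt_of_le_of_ne (natDegree_reflect_le.trans (by omega)) fun e => ?_
    have := leadingCoeff_ne_zero.2 (show reflect (n + n) (fp k T) ≠ 0 from fun e => by simp [e] at c1)
    rw [leadingCoeff, e, coeff_reflect, revAt_le le_rfl, Nat.sub_self, coeff_zero_eq_eval_zero] at this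
    exact this (fp_zero T)
  refine ⟨reflect (n + n) (fp k T), X ^ n, monic_X_pow n, by rw [natDegree_X_pow]; omega,
    by rw [natDegree_X_pow]; omega, IsCoprime.pow_left (irreducible_X.coprime_iff_not_dvd.2 ?_),
    exists_unit (monic_X_pow n) (by rw [natDegree_X_pow]; omega) fun t u hu h => ?_,
    fun t u a ha hu h => ?_⟩
  · rw [X_dvd_iff, coeff_add, mul_coeff_zero, c0, sq, mul_coeff_zero, coeff_derivative, zero_add, c1]
    simp
  · obtain ⟨r1, r2⟩ := refl_unit dA hu (h.trans C_0.symm)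
    rw [reflect_reflect, C_0, zero_mul] at r2
    exact parity (fun e => r1 (by rw [e, eval_zero])) f1 f2 r2
  obtain ⟨r1, r2⟩ := refl_unit dA hu h
  have r3 := congrArg (Polynomial.map (algebraMap k (AlgebraicClosure k))) r2
  simp only [reflect_reflect, Polynomial.map_add, Polynomial.map_mul, Polynomial.map_pow, map_C, map_X,
    fp_map] at r3
  rw [natDegree_X_pow]
  exact real_part (n₀ + 3) n _ (by omega) (by omega) (h5 _ _ _ _ (by simpa using ha) (by omega) (by
    rwa [← coeff_zero_eq_eval_zero, coeff_map, _root_.map_ne_zero, coeff_zero_eq_eval_zero]) r3)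

end H16w
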