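import Pool.Agent.MP_070445_nt.W16.Ind

open Polynomial Finset

namespace H16w

variable {F : Type} [Field F] [CharP F 2] [Algebra (ZMod 2) F]

/-- Squaring as a linear map over the prime field. -/
def fr (F : Type) [Field F] [CharP F 2] [Algebra (ZMod 2) F] : Module.End (ZMod 2) F :=
  (frobenius F 2).toAddMonoidHom.toZModLinearMap 2

theorem fr_pow (j : ℕ) (z : F) : (fr F ^ j) z = z ^ 2 ^ j := by
  induction j with
  | zero => simp
  | succ j ih => rw [pow_succ', Module.End.mul_apply, ih, pow_succ, pow_mul]; rfl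

theorem ker_iff {l : (ZMod 2)[X]} (hm : l.Monic) (h0 : l.coeff 0 ≠ 0) (hd : 0 < l.natDegree) :
    ∃ (e : ℕ) (T : Finset ℕ), l.natDegree = e + 1 ∧ (∀ i ∈ T, i ≤ e) ∧ e ∈ T ∧
      ∀ z : F, aeval (fr F) l z = 0 ↔ Ker e T z := by
  obtain ⟨e, he⟩ : ∃ e, l.natDegree = e + 1 := ⟨l.natDegree - 1, by omega⟩
  have zo : ∀ a : ZMod 2, a = 0 ∨ a = 1 := by decide
  refine ⟨e, (range (e + 1)).filter fun i => l.coeff (e - i) = 1, he, fun i hi => by
    have := mem_range.1 (mem_filter.1 hi).1; omega,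
    mem_filter.2 ⟨self_mem_range_succ e, by rw [Nat.sub_self]; exact (zo _).resolve_left h0⟩,
    fun z => Iff.of_eq (congrArg (· = (0 : F)) ?_)⟩
  rw [aeval_eq_sum_range, LinearMap.sum_apply, sum_range_succ, hm.coeff_natDegree, one_smul, fr_pow,
    he, add_comm, sum_filter, ← sum_range_reflect]
  refine congrArg _ (sum_congr rfl fun i _ => ?_)
  rw [LinearMap.smul_apply, fr_pow, Nat.add_sub_cancel]
  rcases zo (l.coeff (e - i)) with h | h <;> simp [h]

theorem prim [IsAlgClosed F] (k : ℕ) (hk : 2 ≤ k) : ∃ l : (ZMod 2)[X], l.Monic ∧ l.coeff 0 ≠ 0 ∧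
    0 < l.natDegree ∧ l.natDegree ≤ k ∧ (∃ z : F, z ≠ 0 ∧ aeval (fr F) l z = 0) ∧
    ∀ z : F, z ≠ 0 → aeval (fr F) l z = 0 → ∀ a b : ℕ,
      z ^ 2 ^ a = z ^ 2 ^ b ↔ a ≡ b [MOD 2 ^ k - 1] := by
  classical
  have hf : k ≠ 0 := by omega
  obtain ⟨g, hg⟩ := IsCyclic.exists_ofOrder_eq_natCard (α := (GaloisField 2 k)ˣ)
  rw [Nat.card_units, GaloisField.card 2 k hf] at hg
  have hi : IsIntegral (ZMod 2) (g : GaloisField 2 k) := Algebra.IsIntegral.isIntegral _
  have m1 := minpoly.monic hi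
  have m2 := minpoly.natDegree_le (A := ZMod 2) (g : GaloisField 2 k)
  rw [GaloisField.finrank 2 hf] at m2
  have m3 := minpoly.coeff_zero_ne_zero hi g.ne_zero
  have m4 := minpoly.natDegree_pos hi
  refine ⟨_, m1, m3, m4, m2, ?_, fun z z0 hz a b => ?_⟩
  · obtain ⟨e, T, -, h1, h2, h3⟩ := ker_iff (F := F) m1 m3 m4
    have d : (X ^ (2 ^ (e + 1) - 1) + ∑ i ∈ T, X ^ (2 ^ (e - i) - 1) : F[X]).natDegree =
        2 ^ (e + 1) - 1 := by
      rw [natDegree_add_eq_left_of_natDegree_lt, natDegree_X_pow]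
      rw [natDegree_X_pow]
      refine (natDegree_sum_le_of_forall_le _ _ fun i _ => (natDegree_X_pow_le _).trans
        (Nat.sub_le_sub_right (Nat.pow_le_pow_right two_pos (Nat.sub_le e i)) 1)).trans_lt ?_
      have := Nat.one_le_two_pow (n := e)
      rw [pow_succ]; omega
    have p := Nat.one_lt_two_pow (n := e + 1) (by omega)
    obtain ⟨z, hz⟩ := IsAlgClosed.exists_root _ (natDegree_pos_iff_degree_pos.1 (by rw [d]; omega)).ne'
    simp only [IsRoot, eval_add, eval_pow, eval_X, eval_finsetSum] at hz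
    refine ⟨z, ?_, (h3 z).2 ?_⟩
    · rintro rfl
      rw [zero_pow (by omega), zero_add, sum_eq_single_of_mem e h2 fun i hi hie => zero_pow (by
        have := h1 i hi
        have := Nat.one_lt_two_pow (n := e - i) (by omega); omega)] at hz
      simp at hz
    · have := congrArg (· * z) hz
      simp only [add_mul, sum_mul, zero_mul, ← pow_succ,
        Nat.sub_add_cancel Nat.one_le_two_pow] at this
      exact this
  · have e : aeval (fr F) (X ^ a - X ^ b : (ZMod 2)[X]) z = z ^ 2 ^ a - z ^ 2 ^ b := by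
      simp [fr_pow]
    rw [← hg, ← pow_eq_pow_iff_modEq, Units.ext_iff, ← sub_eq_zero, ← e, ← sub_eq_zero (a := (_ :
      GaloisField 2 k)), show ((g ^ a : (GaloisField 2 k)ˣ) : GaloisField 2 k) - (g ^ b : (GaloisField 2 k)ˣ) =
        aeval (g : GaloisField 2 k) (X ^ a - X ^ b : (ZMod 2)[X]) by simp, ← minpoly.dvd_iff]
    refine ⟨fun h => by_contra fun hn => z0 ?_, fun ⟨q, hq⟩ => ?_⟩
    · obtain ⟨u, v, huv⟩ := (minpoly.irreducible hi).coprime_iff_not_dvd.2 hn
      have := congrArg (fun p => aeval (fr F) p z) huv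
      simp only [map_add, map_mul, map_one, LinearMap.add_apply, Module.End.mul_apply, hz, h,
        map_zero, add_zero, Module.End.one_apply] at this
      exact this.symm
    · rw [hq, mul_comm, map_mul, Module.End.mul_apply, hz, map_zero]

theorem aeval_pow (l : (ZMod 2)[X]) {z : F} (h : aeval (fr F) l z = 0) (j : ℕ) :
    aeval (fr F) l (z ^ 2 ^ j) = 0 := by
  have : aeval (fr F) (l * X ^ j) z = aeval (fr F) (X ^ j * l) z := by rw [mul_comm]
  simpa [fr_pow, h] using this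

end H16w
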